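import Pool.Agent.K1H93.NF.Stm

set_option autoImplicit false

/-! Degrees (piece NF-DEG). -/

namespace Pool.Agent.K1H61.NF

open IntermediateField

theorem t_DEG : Pool.Agent.K1H93.NF.S_DEG := by
  intro L M _ _ _ E F _ m θ c Z hZ hint
  set W : IntermediateField F M := adjoin F (E : Set M) with hW
  have hrk : Module.rank F W ≤ Module.rank L E := adjoin_rank_le_of_isAlgebraic_right F E
  have hfinE : Module.rank L E < Cardinal.aleph0 := Module.rank_lt_aleph0 L E
  have hfinW : Module.Finite F W := Module.rank_lt_aleph0_iff.1 (lt_of_le_of_lt hrk hfinE)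
  have hle : Module.finrank F W ≤ Module.finrank L E := by
    unfold Module.finrank
    exact Cardinal.toNat_le_toNat hrk hfinE
  have hmem : Z ∈ W := by
    rw [hZ]
    refine sum_mem fun i _ => mul_mem ?_ ?_
    · exact W.algebraMap_mem (c i)
    · exact subset_adjoin F _ (θ i).2
  have h1 : minpoly F (⟨Z, hmem⟩ : W) = minpoly F Z := by
    rw [← minpoly.algebraMap_eq (algebraMap W M).injective]
    rfl
  have hfree : Module.Free F W := Module.Free.of_divisionRing F W
  rw [← h1]
  exact (minpoly.natDegree_le (⟨Z, hmem⟩ : W)).trans hle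

end Pool.Agent.K1H61.NF
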