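import Pool.Agent.K1H93.NF.Stm

set_option autoImplicit false
set_option synthInstance.maxHeartbeats 400000

/-! Integral bases and their trace duals (piece NF-MAT). -/

namespace Pool.Agent.K1H61.NF

open NumberField Module

theorem t_MAT : Pool.Agent.K1H93.NF.S_MAT := by
  classical
  intro k _ _
  have hcard : Fintype.card (Free.ChooseBasisIndex ℤ (𝓞 k)) = finrank ℚ k := by
    rw [← finrank_eq_card_basis (RingOfIntegers.basis k), RingOfIntegers.rank]
  let e : Free.ChooseBasisIndex ℤ (𝓞 k) ≃ Fin (finrank ℚ k) := Fintype.equivFinOfCardEq hcard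
  let B := (RingOfIntegers.basis k).reindex e
  let BQ := (integralBasis k).reindex e
  have hBQ : ∀ i, BQ i = (B i : k) := by
    intro i
    simp only [B, BQ, Basis.reindex_apply, integralBasis_apply]
  let D := (Algebra.traceForm ℚ k).dualBasis (traceForm_nondegenerate ℚ k) BQ
  have hD : ∀ i j, Algebra.trace ℚ k (D i * BQ j) = if i = j then 1 else 0 := by
    intro i j
    have h := LinearMap.BilinForm.apply_dualBasis_left (traceForm_nondegenerate ℚ k) BQ i j
    rw [Algebra.traceForm_apply] at h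
    rw [h]
    simp only [eq_comm]
  obtain ⟨y, hy0, hy⟩ := exists_integral_multiples ℤ ℚ (Finset.univ.image fun i => D i)
  have hint : ∀ i, IsIntegral ℤ (((y.natAbs : ℕ) : k) * D i) := by
    intro i
    have h1 := hy (D i) (Finset.mem_image_of_mem _ (Finset.mem_univ i))
    rcases Int.natAbs_eq y with h | h
    · have h2 : ((y.natAbs : ℕ) : k) * D i = y • D i := by
        rw [zsmul_eq_mul]
        congr 1
        conv_rhs => rw [h]
        simp
      rw [h2]; exact h1
    · have h2 : ((y.natAbs : ℕ) : k) * D i = -(y • D i) := by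
        rw [zsmul_eq_mul]
        conv_rhs => rw [h]
        simp
      rw [h2]; exact h1.neg
  refine ⟨fun i => B i, fun i => ⟨((y.natAbs : ℕ) : k) * D i, hint i⟩, y.natAbs,
    Int.natAbs_pos.2 hy0, fun z => ⟨fun i => B.repr z i, ?_⟩, ?_⟩
  · conv_lhs => rw [← B.sum_repr z]
    refine Finset.sum_congr rfl fun i _ => ?_
    rw [zsmul_eq_mul]
  · intro M _ _ _
    have h1 : ∀ i j, ∑ σ : k →+* M, σ (((y.natAbs : ℕ) : k) * D i) * σ (B j : k)
        = if i = j then ((y.natAbs : ℕ) : M) else 0 := by
      intro i j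
      have h2 : ∑ σ : k →+* M, σ (((y.natAbs : ℕ) : k) * D i) * σ (B j : k)
          = ∑ σ : k →ₐ[ℚ] M, σ (((y.natAbs : ℕ) : k) * (D i * BQ j)) := by
        refine Fintype.sum_equiv (RingHom.equivRatAlgHom k M) _ _ fun σ => ?_
        rw [RingHom.equivRatAlgHom_apply, ← map_mul, mul_assoc, ← hBQ]
        rfl
      rw [h2, ← trace_eq_sum_embeddings (E := M) (K := ℚ)]
      have h3 : ((y.natAbs : ℕ) : k) * (D i * BQ j) = ((y.natAbs : ℕ) : ℚ) • (D i * BQ j) := by
        rw [Algebra.smul_def, map_natCast]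
      rw [h3, map_smul, hD, smul_eq_mul]
      split_ifs
      · rw [mul_one, map_natCast]
      · rw [mul_zero, map_zero]
    refine ⟨h1, ?_⟩
    have hcM : Fintype.card (Fin (finrank ℚ k)) = Fintype.card (k →+* M) := by
      rw [Fintype.card_fin, Embeddings.card]
    have hΔ : ((y.natAbs : ℕ) : M) ≠ 0 := by
      have := Int.natAbs_pos.2 hy0
      exact_mod_cast this.ne'
    let W : Matrix (Fin (finrank ℚ k)) (k →+* M) M :=
      fun i σ => ((y.natAbs : ℕ) : M)⁻¹ * σ (((y.natAbs : ℕ) : k) * D i)
    let V : Matrix (k →+* M) (Fin (finrank ℚ k)) M := fun σ j => σ (B j : k)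
    have hWV : W * V = 1 := by
      ext i j
      rw [Matrix.mul_apply]
      simp only [W, V, mul_assoc]
      rw [← Finset.mul_sum, h1, Matrix.one_apply]
      split_ifs
      · exact inv_mul_cancel₀ hΔ
      · exact mul_zero _
    have hVW : V * W = 1 := (Matrix.mul_eq_one_comm_of_card_eq _ _ _ hcM).1 hWV
    intro σ τ
    have h4 := congrFun (congrFun hVW σ) τ
    rw [Matrix.mul_apply, Matrix.one_apply] at h4
    have h5 : ∑ i, σ (B i : k) * τ (((y.natAbs : ℕ) : k) * D i)
        = ((y.natAbs : ℕ) : M) * ∑ i, V σ i * W i τ := by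
      rw [Finset.mul_sum]
      refine Finset.sum_congr rfl fun i _ => ?_
      simp only [V, W]
      field_simp
    show ∑ i, σ (B i : k) * τ (((y.natAbs : ℕ) : k) * D i) = _
    rw [h5, h4]
    split_ifs
    · exact mul_one _
    · exact mul_zero _

end Pool.Agent.K1H61.NF
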